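import Mathlib
import Pool.Agent.Lib.MP_04fdae_co.Defs
import Pool.Agent.Lib.MP_04fdae_co.X.Top

/-!
MP_04fdae_co: Kalai's bound for intersecting families of triangulations of a convex polygon,
with the equality case.
-/

namespace Pool.Agent.Results.MP_04fdae_co.Exact

open Pool.Agent.Lib.MP_04fdae_co

/-- An ear diagonal: a diagonal whose ends are at distance two along the boundary. -/
def IsEar {n : ℕ} (d : Fin n × Fin n) : Prop :=
  IsDiag d ∧ (d.2.val = (d.1.val + 2) % n ∨ d.1.val = (d.2.val + 2) % n)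

lemma isEar_iff {n : ℕ} (hn : 4 ≤ n) (d : Fin n × Fin n) :
    IsEar d ↔ (d.2.val = d.1.val + 2 ∨ (d.1.val = 0 ∧ d.2.val = n - 2) ∨
      (d.1.val = 1 ∧ d.2.val = n - 1)) := by
  have h1 := d.1.isLt
  have h2 := d.2.isLt
  have key : ∀ a : ℕ, a < n → ((a + 2 < n ∧ (a + 2) % n = a + 2) ∨
      (n ≤ a + 2 ∧ (a + 2) % n = a + 2 - n)) := by
    intro a ha
    rcases Nat.lt_or_ge (a + 2) n with h | h
    · exact Or.inl ⟨h, Nat.mod_eq_of_lt h⟩
    · refine Or.inr ⟨h, ?_⟩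
      rw [Nat.mod_eq_sub_mod h]
      exact Nat.mod_eq_of_lt (by omega)
  have k1 := key _ h1
  have k2 := key _ h2
  unfold IsEar IsDiag
  omega

lemma tri_nonempty {n : ℕ} (hn : 4 ≤ n) {T : Finset (Fin n × Fin n)} (hT : IsTriangulation T) :
    T.Nonempty := by
  rcases T.eq_empty_or_nonempty with rfl | h
  · refine ⟨(⟨0, by omega⟩, ⟨2, by omega⟩), hT.2.2 _ ?_ (by simp)⟩
    unfold IsDiag
    simp only
    omega
  · exact h

theorem result (n : ℕ) (hn : 4 ≤ n) (F : Finset (Finset (Fin n × Fin n)))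
    (hF : ∀ T ∈ F, IsTriangulation T)
    (hint : ∀ T₁ ∈ F, ∀ T₂ ∈ F, T₁ ≠ T₂ → (T₁ ∩ T₂).Nonempty) :
    F.card ≤ catalan (n - 3) ∧
      (F.card = catalan (n - 3) ↔
        ∃ d : Fin n × Fin n, IsEar d ∧
          ∀ T : Finset (Fin n × Fin n), T ∈ F ↔ (IsTriangulation T ∧ d ∈ T)) := by
  have hint' : ∀ T₁ ∈ F, ∀ T₂ ∈ F, (T₁ ∩ T₂).Nonempty := by
    intro T₁ h₁ T₂ h₂
    by_cases h : T₁ = T₂
    · rw [← h, Finset.inter_self]
      exact tri_nonempty hn (hF _ h₁)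
    · exact hint _ h₁ _ h₂ h
  have h := X.top n hn {T | IsTriangulation T} (fun _ => Iff.rfl) F hF hint'
  refine ⟨h.1, h.2.trans (exists_congr fun d => and_congr (isEar_iff hn d).symm Iff.rfl)⟩

end Pool.Agent.Results.MP_04fdae_co.Exact
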