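import Mathlib
import Pool.Agent.Lib.MP_04fdae_co.Defs
import Pool.Agent.Lib.MP_04fdae_co.T.Top

/-!
MP_04fdae_co: the largest families of triangulations of a convex polygon in which any two members
have at least `t` common diagonals.
-/

namespace Pool.Agent.Results.MP_04fdae_co.ManyCommon

open Pool.Agent.Lib.MP_04fdae_co

/-- The number of chords `(2 i, 2 i + 2)` with `i < m` that belong to `T`. -/
def earCount {n : ℕ} (m : ℕ) (T : Finset (Fin n × Fin n)) : ℕ :=
  (T.filter fun p => Even p.1.val ∧ p.2.val = p.1.val + 2 ∧ p.1.val < 2 * m).card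

open Classical in
/-- The triangulations that contain at least `t + r` of the `t + 2 r` chords `(2 i, 2 i + 2)`,
`i < t + 2 r`. -/
noncomputable def EarFamily (n t r : ℕ) : Finset (Finset (Fin n × Fin n)) :=
  Finset.univ.filter fun T => IsTriangulation T ∧ t + r ≤ earCount (t + 2 * r) T

lemma mem_earFamily {n t r : ℕ} {U : Finset (Fin n × Fin n)} :
    U ∈ EarFamily n t r ↔ U.image T.ph ∈ T.frk n (t + 2 * r) (t + r) := by
  unfold EarFamily T.frk earCount
  rw [T.Ears_mem, T.Ears_mem, T.mem_allT, T.ph_tri, T.ph_ears]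
  exact ⟨fun h => h.2, fun h => ⟨Finset.mem_univ _, h⟩⟩

lemma card_earFamily (n t r : ℕ) :
    (EarFamily n t r).card = (T.frk n (t + 2 * r) (t + r)).card := by
  refine Finset.card_bij (fun U _ => U.image T.ph) (fun U hU => mem_earFamily.1 hU)
    (fun U _ V _ h => Finset.image_injective T.ph_inj h) fun S hS => ?_
  obtain ⟨U, rfl⟩ := T.ph_lift (T.mem_allT.1 (T.Ears_mem.1 hS).1)
  exact ⟨U, mem_earFamily.2 hS, rfl⟩

theorem result (n t : ℕ) (ht : 1 ≤ t) (hn : 4 * t ≤ n) (hn' : Even t → 9 * t ≤ 2 * n) :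
    ((∀ T ∈ EarFamily n t ((t - 1) / 2), IsTriangulation T) ∧
      ∀ T₁ ∈ EarFamily n t ((t - 1) / 2), ∀ T₂ ∈ EarFamily n t ((t - 1) / 2),
        t ≤ (T₁ ∩ T₂).card) ∧
    ∀ F : Finset (Finset (Fin n × Fin n)), (∀ T ∈ F, IsTriangulation T) →
      (∀ T₁ ∈ F, ∀ T₂ ∈ F, T₁ ≠ T₂ → t ≤ (T₁ ∩ T₂).card) →
      F.card ≤ (EarFamily n t ((t - 1) / 2)).card := by
  refine ⟨⟨fun U hU => (T.Ears_mem.1 hU).2.1, fun U hU V hV => ?_⟩, fun F h1 h2 => ?_⟩
  · rw [← T.ph_inter]
    exact T.frk_ti (mem_earFamily.1 hU) (mem_earFamily.1 hV)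
  · rw [card_earFamily, ← Finset.card_image_of_injective F (Finset.image_injective T.ph_inj)]
    refine T.frk_max ht hn hn' _ (fun S hS => ?_) fun S hS S' hS' hne => ?_
    · obtain ⟨U, hU, rfl⟩ := Finset.mem_image.1 hS
      exact T.ph_tri.1 (h1 U hU)
    · obtain ⟨U, hU, rfl⟩ := Finset.mem_image.1 hS
      obtain ⟨V, hV, rfl⟩ := Finset.mem_image.1 hS'
      rw [T.ph_inter]
      exact h2 U hU V hV fun h => hne (by rw [h])

end Pool.Agent.Results.MP_04fdae_co.ManyCommon
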